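import Mathlib

/-!
Definitions used in the statement: normal affine varieties inside a function field K over k, prime
divisors, orders of rational functions and of rational top forms, Cartier multiples of the canonical
divisor and minimal log discrepancies (boundary B = 0).
-/

namespace Pool.Agent.MP_dd9dc3_ag

variable {k K : Type*} [Field k] [Field K] [Algebra k K]

/-- Spec A is a normal affine variety over k with function field K. -/
def IsModel (A : Subalgebra k K) : Prop :=
  A.FG ∧ IsIntegrallyClosed A ∧ IsFractionRing A K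

/-- f lies in the local ring of A at the prime p. -/
def InLoc (A : Subalgebra k K) (p : Ideal A) (f : K) : Prop :=
  ∃ a b : A, b ∉ p ∧ f * b = a

/-- v is the normalised valuation (written multiplicatively) of a prime divisor of Spec A: its
valuation ring is the local ring of A at a prime ideal of height one. -/
def IsDiv (A : Subalgebra k K) (v : Valuation K (WithZero (Multiplicative ℤ))) : Prop :=
  Function.Surjective v ∧ ∃ p : Ideal A, p.IsPrime ∧ p.height = 1 ∧ ∀ f : K, v f ≤ 1 ↔ InLoc A p f

/-- The order of vanishing of a nonzero rational function along v. -/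
noncomputable def ord (v : Valuation K (WithZero (Multiplicative ℤ))) (f : K) : ℤ :=
  -WithZero.log (v f)

/-- Differential d-forms of K over k are viewed as functions of d vector fields (k-derivations). -/
abbrev Form (k K : Type*) [Field k] [Field K] [Algebra k K] (d : ℕ) :=
  (Fin d → Derivation k K K) → K

/-- The form df1 ∧ ... ∧ dfd. -/
noncomputable def dform (k : Type*) [Field k] [Algebra k K] {d : ℕ} (f : Fin d → K) : Form k K d :=
  fun δ => Matrix.det (Matrix.of fun i j => δ i (f j))

/-- The d-forms that are regular along v: sums of forms a df1 ∧ ... ∧ dfd with a and all fi in the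
valuation ring. -/
noncomputable def regForms (k : Type*) [Field k] [Algebra k K] (d : ℕ)
    (v : Valuation K (WithZero (Multiplicative ℤ))) : AddSubgroup (Form k K d) :=
  AddSubgroup.closure {w | ∃ (a : K) (f : Fin d → K), v a ≤ 1 ∧ (∀ i, v (f i) ≤ 1) ∧
    w = a • dform k f}

/-- The rational d-form w has order n along v: c w is regular iff ord c + n ≥ 0. -/
def HasOrd {d : ℕ} (v : Valuation K (WithZero (Multiplicative ℤ)))
    (w : Form k K d) (n : ℤ) : Prop :=
  ∀ c : K, c ≠ 0 → (c • w ∈ regForms k d v ↔ 0 ≤ ord v c + n)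

/-- With K_X the divisor of the form w on X = Spec A: m K_X is the divisor of the function φ on a
neighbourhood (g ≠ 0) of the point x. -/
def IsLocalEq {d : ℕ} (A : Subalgebra k K) (x : Ideal A) (w : Form k K d)
    (m : ℕ) (φ : K) : Prop :=
  φ ≠ 0 ∧ ∃ g : A, g ∉ x ∧ ∀ v, IsDiv A v → v g = 1 → ∃ n : ℤ, HasOrd v w n ∧ m * n = ord v φ

/-- m K_X is Cartier near x. -/
def IsCartier {d : ℕ} (A : Subalgebra k K) (x : Ideal A) (w : Form k K d)
    (m : ℕ) : Prop :=
  ∃ φ : K, IsLocalEq A x w m φ

/-- K_X is Q-Cartier near x, say m K_X = div φ, and ε is the infimum of the log discrepancies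
1 + ord_E w - (ord_E φ) / m over all prime divisors E on normal birational models Spec B → Spec A
whose centre on X = Spec A is x. -/
def HasMld {d : ℕ} (A : Subalgebra k K) (x : Ideal A) (w : Form k K d)
    (ε : ℝ) : Prop :=
  ∃ (m : ℕ) (φ : K), 0 < m ∧ IsLocalEq A x w m φ ∧
    IsGLB {a : ℝ | ∃ (B : Subalgebra k K) (v : Valuation K (WithZero (Multiplicative ℤ))) (n : ℤ),
      IsModel B ∧ A ≤ B ∧ IsDiv B v ∧ (∀ f : A, v f < 1 ↔ f ∈ x) ∧ HasOrd v w n ∧
        a = 1 + (n : ℝ) - (ord v φ : ℝ) / m} ε

end Pool.Agent.MP_dd9dc3_ag
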